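import Pool.Agent.X151.QC.All

/-!
# Random conformal metrics: almost sure equidistribution in the mean along subsequences

Let `(M, g)` be a closed surface with a continuous Riemannian metric (for instance a smooth metric
of negative curvature), and for every continuous function `φ` let `u φ 0, u φ 1, ...` be an
orthonormal basis of `L²` which consists of eigenfunctions of the Laplacian of `exp φ · g`, ordered by
the eigenvalues `lam φ j`; the choice of the bases is arbitrary.

The starting result `RandomConformalMetrics` says that for a random metric `exp φ · g` the masses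
`∫ f (u φ j)² dA` converge weakly in `L¹ (P)` to the mean value of `f`. Here we derive almost sure
statements.

* One-parameter families. For all `φ`, `h` and every sequence `J` of indices which tends to infinity
  there is a subsequence such that for this sequence and all its subsequences and for almost every
  `t` the averages of `∫ h (u j)² dA` for the metric `exp (φ + t h) · g` converge to the mean value of
  `h`.
* Random metrics, the distribution `P` is quasi-invariant under the translations by the multiples of
  the functions of a set `S` with dense linear span. Then almost surely all nonzero eigenvalues are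
  simple (so that the eigenfunctions are unique up to the sign). Every sequence `J` has a
  subsequence `J ∘ s` such that for each of its subsequences almost surely the averages of the
  measures `(u j)² dA` converge weakly to the uniform measure; in particular the uniform measure is
  not separated from the quantum limits along `J` by any continuous function. Moreover the
  probability that the `j`-th eigenfunction has at least the mass `η` on a closed set `K` is
  asymptotically at most the expected relative area of `K`, divided by `η`: there is no exceptional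
  sequence of eigenvalues.

Idea of the proof. For the averages: a subsequence is almost orthogonal (Komlos), and a strong law of
large numbers holds for bounded almost orthogonal functions. For the spectrum: in almost every
direction the eigenvalues are differentiable at almost every metric, and then the quadratic form of
the direction `h` is a multiple of the form of `1` on every eigenspace with nonzero eigenvalue, for
countably many directions with dense span, hence for all continuous functions `h`; then two
orthonormal eigenfunctions `v`, `w` of the same eigenvalue have `v² = w²` and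
`(v + w)² = (v - w)²`, so that `v = 0`.
-/

set_option autoImplicit false

open Set Filter Topology MeasureTheory
open Pool.Agent.Y262.QE

noncomputable section

namespace Pool.Agent.Results.MP_07c750_an.AlmostSureCesaro

/-- `u 0, u 1, ...` is an orthonormal basis of `L² (μ)` which consists of eigenfunctions of the
Laplacian of the surface `D` with the area `μ`; the eigenvalues `lam 0 ≤ lam 1 ≤ ...` are ordered -/
structure IsEigenbasis {M : Type} [MeasurableSpace M] (D : Data M) (μ : Measure M)
    (u : ℕ → M → ℝ) (lam : ℕ → ℝ) : Prop where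
  eig : ∀ j, D.IsEig μ (lam j) (u j)
  mono : Monotone lam
  orth : ∀ i j, ∫ x, u i x * u j x ∂μ = if i = j then 1 else 0
  total : ∀ f : M → ℝ, MemLp f 2 μ → (∀ j, ∫ x, f x * u j x ∂μ = 0) → f =ᵐ[μ] 0

/-- the surface with the metric `exp φ · g` -/
def surf {M : Type} [TopologicalSpace M] (D : Data M) (φ : C(M, ℝ)) : Data M :=
  D.conf fun x => Real.exp (φ x)

/-- the area of the metric `exp φ · g` -/
def area {M : Type} [TopologicalSpace M] [MeasurableSpace M] (μ : Measure M) (φ : C(M, ℝ)) :
    Measure M :=
  wm μ fun x => Real.exp (φ x)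

/-- the mass `∫ f (u φ j)² dA` of `f` for the `j`-th eigenfunction of the metric `exp φ · g` -/
def mass {M : Type} [TopologicalSpace M] [MeasurableSpace M] (μ : Measure M)
    (u : C(M, ℝ) → ℕ → M → ℝ) (f φ : C(M, ℝ)) (j : ℕ) : ℝ :=
  ∫ x, f x * (u φ j x) ^ 2 ∂(area μ φ)

/-- the mean value of `f` for the metric `exp φ · g` -/
def mean {M : Type} [TopologicalSpace M] [MeasurableSpace M] (μ : Measure M) (f φ : C(M, ℝ)) : ℝ :=
  (∫ x, f x ∂(area μ φ)) / (area μ φ).real univ

theorem result (M : Type) [MetricSpace M] [CompactSpace M] [MeasurableSpace M] [BorelSpace M]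
    [Nonempty M] (μ : Measure M) (D : Data M) (hD : D.IsSurf μ) (u : C(M, ℝ) → ℕ → M → ℝ)
    (lam : C(M, ℝ) → ℕ → ℝ) (hu : ∀ φ, IsEigenbasis (surf D φ) (area μ φ) (u φ) (lam φ)) :
    (∀ (φ h : C(M, ℝ)) (J : ℕ → ℕ), Tendsto J atTop atTop →
      ∃ s : ℕ → ℕ, StrictMono s ∧ ∀ r : ℕ → ℕ, StrictMono r → ∀ᵐ t : ℝ,
        Tendsto (fun N : ℕ => (∑ k ∈ Finset.range N, mass μ u h (φ + t • h) (J (s (r k)))) / N)
          atTop (𝓝 (mean μ h (φ + t • h)))) ∧
    ∀ [MeasurableSpace C(M, ℝ)] [BorelSpace C(M, ℝ)] (P : Measure C(M, ℝ)) [IsProbabilityMeasure P]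
      (S : Set C(M, ℝ)), Dense (Submodule.span ℝ S : Set C(M, ℝ)) →
      (∀ h ∈ S, ∀ t : ℝ, P.map (fun φ => φ + t • h) ≪ P) →
      (∀ᵐ φ ∂P, ∀ i j : ℕ, i ≠ j → lam φ i = lam φ j → lam φ j = 0) ∧
      (∀ J : ℕ → ℕ, Tendsto J atTop atTop →
        (∃ s : ℕ → ℕ, StrictMono s ∧ ∀ r : ℕ → ℕ, StrictMono r → ∀ᵐ φ ∂P, ∀ f : C(M, ℝ),
          Tendsto (fun N : ℕ => (∑ k ∈ Finset.range N, mass μ u f φ (J (s (r k)))) / N) atTop
            (𝓝 (mean μ f φ))) ∧
        ∀ᵐ φ ∂P, ∀ (f : C(M, ℝ)) (ε : ℝ), 0 < ε →
          (∃ᶠ k in atTop, mass μ u f φ (J k) < mean μ f φ + ε) ∧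
          ∃ᶠ k in atTop, mean μ f φ - ε < mass μ u f φ (J k)) ∧
      ∀ K : Set M, IsClosed K → ∀ η : ℝ, 0 < η → ∀ ε : ℝ, 0 < ε → ∀ᶠ j in atTop,
        P {φ | η ≤ ∫ x in K, (u φ j x) ^ 2 ∂(area μ φ)} ≤
          ENNReal.ofReal ((∫ φ, (area μ φ).real K / (area μ φ).real univ ∂P) / η + ε) := by
  have hu' : ∀ φ : C(M, ℝ), Pool.Agent.Y264.QR.EigBasis (D.conf fun x => Real.exp (φ x))
      (wm μ fun x => Real.exp (φ x)) (u φ) (lam φ) := fun φ =>
    ⟨(hu φ).eig, (hu φ).mono, (hu φ).orth, (hu φ).total⟩
  refine ⟨fun φ h J hJ => Pool.Agent.X151.QC.line_surf hD hu' φ h J hJ, ?_⟩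
  intro _ _ P _ S hS hP
  exact ⟨Pool.Agent.X151.QC.simple_surf hD hu' P hS hP, fun J hJ =>
    ⟨Pool.Agent.X151.QC.cesaro hD hu' P hS hP J hJ, Pool.Agent.X151.QC.between hD hu' P hS hP J hJ⟩,
    fun K hK η hη ε hε => Pool.Agent.X151.QC.concentration hD hu' P hS hP K hK η hη ε hε⟩

end Pool.Agent.Results.MP_07c750_an.AlmostSureCesaro
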