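import Pool.Agent.X103.QH3

/-!
# Generic conformal metrics: the uniform measure lies between the limits along prescribed indices

Let `M` be a closed surface with a continuous Riemannian metric `g` (for instance a smooth metric of
negative curvature). Let countably many sequences `J n` of indices which tend to infinity be given.
For a residual set of conformal factors the following holds for every `n`, every choice of
normalized eigenfunctions `v k` of the eigenvalue number `J n k`, and every continuous function `f`:
the mean value of `f` lies between the lower and the upper limit of `∫ f (v k)² dA`. In other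
words: the uniform measure belongs to the closed convex hull of the weak limits of `(v k)² dA`; in
particular if these measures converge, the limit is the uniform measure.

The space of conformal factors can be `C(M)` with the supremum norm, or any topological space `X` with
a continuous map to `C(M)` whose image is stable under small translations in a dense set of directions:
for instance the smooth functions `φ` on `M` for which `exp φ · g` has negative curvature, with the
`C^∞` topology.

Idea of the proof: the one-parameter theorem gives density; the masses on the eigenspace of the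
`j`-th eigenvalue are upper semicontinuous functions of the metric, also at multiple eigenvalues.
-/

set_option autoImplicit false

open Set Filter Topology MeasureTheory
open Pool.Agent.Y262.QE

noncomputable section

namespace Pool.Agent.Results.MP_07c750_an.GenericMetrics

/-- `u 0, u 1, ...` is an orthonormal basis of `L² (μ)` which consists of eigenfunctions of the
Laplacian of the surface `D` with the area `μ`; the eigenvalues `lam 0 ≤ lam 1 ≤ ...` are ordered -/
structure IsEigenbasis {M : Type} [MeasurableSpace M] (D : Data M) (μ : Measure M)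
    (u : ℕ → M → ℝ) (lam : ℕ → ℝ) : Prop where
  eig : ∀ j, D.IsEig μ (lam j) (u j)
  mono : Monotone lam
  orth : ∀ i j, ∫ x, u i x * u j x ∂μ = if i = j then 1 else 0
  total : ∀ f : M → ℝ, MemLp f 2 μ → (∀ j, ∫ x, f x * u j x ∂μ = 0) → f =ᵐ[μ] 0

/-- the surface with the metric `exp φ · g` -/
def surf {M : Type} [TopologicalSpace M] (D : Data M) (φ : C(M, ℝ)) : Data M :=
  D.conf fun x => Real.exp (φ x)

/-- the area of the metric `exp φ · g` -/
def area {M : Type} [TopologicalSpace M] [MeasurableSpace M] (μ : Measure M) (φ : C(M, ℝ)) :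
    Measure M :=
  wm μ fun x => Real.exp (φ x)

/-- the mass of `f` for the function `v` and the metric `exp φ · g` -/
def mass {M : Type} [TopologicalSpace M] [MeasurableSpace M] (μ : Measure M) (φ f : C(M, ℝ))
    (v : M → ℝ) : ℝ :=
  ∫ x, f x * (v x) ^ 2 ∂(area μ φ)

/-- the mean value of `f` for the metric `exp φ · g` -/
def mean {M : Type} [TopologicalSpace M] [MeasurableSpace M] (μ : Measure M) (φ f : C(M, ℝ)) : ℝ :=
  (∫ x, f x ∂(area μ φ)) / (area μ φ).real univ

/-- `v` is an eigenfunction of the metric `exp φ · g` with the eigenvalue `r` and with `L²` norm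
one -/
def IsUnitEig {M : Type} [TopologicalSpace M] [MeasurableSpace M] (D : Data M) (μ : Measure M)
    (φ : C(M, ℝ)) (r : ℝ) (v : M → ℝ) : Prop :=
  (surf D φ).IsEig (area μ φ) r v ∧ ∫ x, (v x) ^ 2 ∂(area μ φ) = 1

/-- for the metric `exp φ · g` and the sequence of indices `J`: for all normalized eigenfunctions
`v k` of the eigenvalue number `J k`, the mean value of every continuous function lies between the
lower and the upper limit of its masses -/
def Bracket {M : Type} [TopologicalSpace M] [MeasurableSpace M] (D : Data M) (μ : Measure M)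
    (J : ℕ → ℕ) (φ : C(M, ℝ)) : Prop :=
  ∀ (u : ℕ → M → ℝ) (lam : ℕ → ℝ), IsEigenbasis (surf D φ) (area μ φ) u lam →
    ∀ v : ℕ → M → ℝ, (∀ k, IsUnitEig D μ φ (lam (J k)) (v k)) → ∀ f : C(M, ℝ),
      liminf (fun k => mass μ φ f (v k)) atTop ≤ mean μ φ f ∧
      mean μ φ f ≤ limsup (fun k => mass μ φ f (v k)) atTop

theorem result (M : Type) [MetricSpace M] [CompactSpace M] [MeasurableSpace M] [BorelSpace M]
    [Nonempty M] (μ : Measure M) (D : Data M) (hD : D.IsSurf μ) :
    (∀ φ : C(M, ℝ), (surf D φ).IsSurf (area μ φ) ∧
      ∃ (u : ℕ → M → ℝ) (lam : ℕ → ℝ), IsEigenbasis (surf D φ) (area μ φ) u lam) ∧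
    ∀ J : ℕ → ℕ → ℕ, (∀ n, Tendsto (J n) atTop atTop) →
      ((∀ᶠ φ in residual C(M, ℝ), ∀ n, Bracket D μ (J n) φ) ∧
        Dense {φ : C(M, ℝ) | ∀ n, Bracket D μ (J n) φ}) ∧
      ∀ (X : Type) [TopologicalSpace X] (ι : X → C(M, ℝ)), Continuous ι →
        ∀ S : Set C(M, ℝ), Dense S →
        (∀ x, ∀ f ∈ S, ∃ γ : ℝ → X, Tendsto γ (𝓝 0) (𝓝 x) ∧
          ∀ᶠ t in 𝓝 (0 : ℝ), ι (γ t) = ι x + t • f) →
        ∀ᶠ x in residual X, ∀ n, Bracket D μ (J n) (ι x) := by
  refine ⟨fun φ => ⟨(Pool.Agent.Y262.QE.tConf M μ D hD _
    (Real.continuous_exp.comp φ.continuous) fun x => Real.exp_pos _).1, ?_⟩, fun J hJ => ?_⟩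
  · obtain ⟨u, lam, h⟩ := Pool.Agent.Y264.QR.tEx M μ D hD inferInstance φ
    exact ⟨u, lam, h.eig, h.mono, h.orth, h.total⟩
  · have key : ∀ (X : Type) [TopologicalSpace X] (ι : X → C(M, ℝ)), Continuous ι →
        ∀ S : Set C(M, ℝ), Dense S →
        (∀ x, ∀ f ∈ S, ∃ γ : ℝ → X, Tendsto γ (𝓝 0) (𝓝 x) ∧
          ∀ᶠ t in 𝓝 (0 : ℝ), ι (γ t) = ι x + t • f) →
        ∀ᶠ x in residual X, ∀ n, Bracket D μ (J n) (ι x) := by
      intro X _ ι hι S hS hp
      rw [eventually_countable_forall]
      intro n
      filter_upwards [Pool.Agent.X103.QF.genericF μ D hD (J n) (hJ n) ι hι S hS hp] with x hx u lam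
        hu v hv f
      exact hx u lam ⟨hu.eig, hu.mono, hu.orth, hu.total⟩ v hv f
    have h1 := key C(M, ℝ) id continuous_id univ dense_univ (fun φ f _ =>
      ⟨fun t => φ + t • f, by
        have h2 : Continuous fun t : ℝ => φ + t • f := by fun_prop
        have h3 := h2.tendsto 0
        rwa [zero_smul, add_zero] at h3, Eventually.of_forall fun t => rfl⟩)
    exact ⟨⟨h1, dense_of_mem_residual h1⟩, key⟩

end Pool.Agent.Results.MP_07c750_an.GenericMetrics
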