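import Pool.Agent.X103.QF4

/-!
# No exceptional eigenvalue number survives small conformal perturbations

Let `M` be a closed surface with a continuous Riemannian metric `g` (for instance a smooth metric of
negative curvature). For a continuous function `φ` on `M` consider the metric `exp φ · g` and an
ordered orthonormal basis of `L²` which consists of eigenfunctions of its Laplacian.

Fix `φ`, finitely many continuous functions `h 0, ..., h (m - 1)` and `ε > 0`. For all large `j`
(without exception) there is a metric `exp ψ · g` with `ψ = φ + ∑ s_l h_l`, `|s_l| < ε`, for which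
the eigenspace of the `j`-th eigenvalue contains a finite family of normalized eigenfunctions which
is equidistributed on average for the test functions `h l` up to the error `ε`. If the `j`-th
eigenvalue of this metric is simple, then its eigenfunction itself is equidistributed for the `h l`
up to `ε`. If there is only one test function, one normalized eigenfunction suffices in all cases.

Idea of the proof: in dimension two the one-sided derivatives of `log (λ_j Area)` in the direction
`h` at `ψ` are given by the extreme values of (mean of `h`) - `∫ h v² dA` on the unit sphere of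
the eigenspace. By Weyl's law `log (λ_j Area) - log j` tends to a constant, locally uniformly on
finite dimensional families by the Lipschitz bound. Hence for large `j` the sum of this functional and
of a small multiple of `|s|²` has an interior minimum, and the Hahn-Banach theorem gives a point of
the convex hull of the values near the mean values.
-/

set_option autoImplicit false

open Set Filter Topology MeasureTheory
open Pool.Agent.Y262.QE

noncomputable section

namespace Pool.Agent.Results.MP_07c750_an.NoStableScars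

/-- `u 0, u 1, ...` is an orthonormal basis of `L² (μ)` which consists of eigenfunctions of the
Laplacian of the surface `D` with the area `μ`; the eigenvalues `lam 0 ≤ lam 1 ≤ ...` are ordered -/
structure IsEigenbasis {M : Type} [MeasurableSpace M] (D : Data M) (μ : Measure M)
    (u : ℕ → M → ℝ) (lam : ℕ → ℝ) : Prop where
  eig : ∀ j, D.IsEig μ (lam j) (u j)
  mono : Monotone lam
  orth : ∀ i j, ∫ x, u i x * u j x ∂μ = if i = j then 1 else 0
  total : ∀ f : M → ℝ, MemLp f 2 μ → (∀ j, ∫ x, f x * u j x ∂μ = 0) → f =ᵐ[μ] 0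

/-- the surface with the metric `exp φ · g` -/
def surf {M : Type} [TopologicalSpace M] (D : Data M) (φ : C(M, ℝ)) : Data M :=
  D.conf fun x => Real.exp (φ x)

/-- the area of the metric `exp φ · g` -/
def area {M : Type} [TopologicalSpace M] [MeasurableSpace M] (μ : Measure M) (φ : C(M, ℝ)) :
    Measure M :=
  wm μ fun x => Real.exp (φ x)

/-- the mass of `h` for the function `v` and the metric `exp φ · g` -/
def mass {M : Type} [TopologicalSpace M] [MeasurableSpace M] (μ : Measure M) (φ h : C(M, ℝ))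
    (v : M → ℝ) : ℝ :=
  ∫ x, h x * (v x) ^ 2 ∂(area μ φ)

/-- the mean value of `h` for the metric `exp φ · g` -/
def mean {M : Type} [TopologicalSpace M] [MeasurableSpace M] (μ : Measure M) (φ h : C(M, ℝ)) : ℝ :=
  (∫ x, h x ∂(area μ φ)) / (area μ φ).real univ

/-- `v` is an eigenfunction of the metric `exp φ · g` with the eigenvalue `r` and with `L²` norm
one -/
def IsUnitEig {M : Type} [TopologicalSpace M] [MeasurableSpace M] (D : Data M) (μ : Measure M)
    (φ : C(M, ℝ)) (r : ℝ) (v : M → ℝ) : Prop :=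
  (surf D φ).IsEig (area μ φ) r v ∧ ∫ x, (v x) ^ 2 ∂(area μ φ) = 1

theorem result (M : Type) [MetricSpace M] [CompactSpace M] [MeasurableSpace M] [BorelSpace M]
    [Nonempty M] (μ : Measure M) (D : Data M) (hD : D.IsSurf μ) :
    (∀ φ : C(M, ℝ), (surf D φ).IsSurf (area μ φ) ∧
      ∃ (u : ℕ → M → ℝ) (lam : ℕ → ℝ), IsEigenbasis (surf D φ) (area μ φ) u lam) ∧
    ∀ (u : C(M, ℝ) → ℕ → M → ℝ) (lam : C(M, ℝ) → ℕ → ℝ),
      (∀ φ, IsEigenbasis (surf D φ) (area μ φ) (u φ) (lam φ)) →
    ∀ φ : C(M, ℝ),
      (∀ (m : ℕ) (h : Fin m → C(M, ℝ)) (ε : ℝ), 0 < ε → ∃ J : ℕ, ∀ j : ℕ, J ≤ j →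
        ∃ ψ : C(M, ℝ), (∃ s : Fin m → ℝ, (∀ l, |s l| < ε) ∧ ψ = φ + ∑ l, s l • h l) ∧
          (∃ (N : ℕ) (p : Fin N → ℝ) (v : Fin N → M → ℝ), (∀ k, 0 ≤ p k) ∧ ∑ k, p k = 1 ∧
            (∀ k, IsUnitEig D μ ψ (lam ψ j) (v k)) ∧
            ∀ l, |∑ k, p k * mass μ ψ (h l) (v k) - mean μ ψ (h l)| < ε) ∧
          ((∀ k, k ≠ j → lam ψ k ≠ lam ψ j) →
            ∀ l, |mass μ ψ (h l) (u ψ j) - mean μ ψ (h l)| < ε)) ∧
      ∀ (h : C(M, ℝ)) (ε : ℝ), 0 < ε → ∃ J : ℕ, ∀ j : ℕ, J ≤ j → ∃ s : ℝ, |s| < ε ∧
        ∃ v : M → ℝ, IsUnitEig D μ (φ + s • h) (lam (φ + s • h) j) v ∧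
          |mass μ (φ + s • h) h v - mean μ (φ + s • h) h| < ε := by
  refine ⟨fun φ => ⟨(Pool.Agent.Y262.QE.tConf M μ D hD _
    (Real.continuous_exp.comp φ.continuous) fun x => Real.exp_pos _).1, ?_⟩, ?_⟩
  · obtain ⟨u, lam, h⟩ := Pool.Agent.Y264.QR.tEx M μ D hD inferInstance φ
    exact ⟨u, lam, h.eig, h.mono, h.orth, h.total⟩
  · intro u lam hu φ
    have hu' : ∀ φ, Pool.Agent.Y264.QR.EigBasis (D.conf fun x => Real.exp (φ x))
        (wm μ fun x => Real.exp (φ x)) (u φ) (lam φ) :=
      fun φ => ⟨(hu φ).eig, (hu φ).mono, (hu φ).orth, (hu φ).total⟩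
    refine ⟨fun m h ε hε => Pool.Agent.X103.QF.many μ D hD u lam hu' φ h ε hε, fun h ε hε => ?_⟩
    obtain ⟨J, hJ⟩ := Pool.Agent.X103.QF.one μ D hD u lam hu' φ h ε hε
    refine ⟨J, fun j hj => ?_⟩
    obtain ⟨s, hs, v, h1, h2, h3⟩ := hJ j hj
    exact ⟨s, hs, v, ⟨h1, h2⟩, h3⟩

end Pool.Agent.Results.MP_07c750_an.NoStableScars
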