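import Pool.Agent.X103.QG2

/-!
# Quantum unique ergodicity in the mean along one-parameter families of conformal metrics

Let `M` be a closed surface with a continuous Riemannian metric `g` (for instance a smooth metric of
negative curvature), and let `φ`, `h` be continuous functions on `M`. Consider the metrics
`exp (φ + t h) · g`, `t ∈ ℝ`, with arbitrary ordered orthonormal bases `u t 0, u t 1, ...` of
eigenfunctions, with the eigenvalues `lam t 0 ≤ lam t 1 ≤ ...`.

* For almost every `t` all eigenvalues are differentiable at `t`, and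
  `d/dt lam t j = - lam t j · ∫ h (u t j)² dA_t`; all normalized eigenfunctions of a positive
  eigenvalue have the same mass `∫ h v² dA_t`.
* For large `j` the integral of the mass over `[α, β]` is `log (lam α j) - log (lam β j)`.
* The mass tends to the mean value of `h`, weakly in `t`: against every integrable `χ`.
* For every sequence of indices and almost every `t` the mean value of `h` lies between the lower
  and the upper limit of the masses.

In contrast to results for a random metric only one direction is used, and there is no exceptional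
sequence of indices.
-/

set_option autoImplicit false

open Set Filter Topology MeasureTheory
open Pool.Agent.Y262.QE

noncomputable section

namespace Pool.Agent.Results.MP_07c750_an.OneParameterFamilies

/-- `u 0, u 1, ...` is an orthonormal basis of `L² (μ)` which consists of eigenfunctions of the
Laplacian of the surface `D` with the area `μ`; the eigenvalues `lam 0 ≤ lam 1 ≤ ...` are ordered -/
structure IsEigenbasis {M : Type} [MeasurableSpace M] (D : Data M) (μ : Measure M)
    (u : ℕ → M → ℝ) (lam : ℕ → ℝ) : Prop where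
  eig : ∀ j, D.IsEig μ (lam j) (u j)
  mono : Monotone lam
  orth : ∀ i j, ∫ x, u i x * u j x ∂μ = if i = j then 1 else 0
  total : ∀ f : M → ℝ, MemLp f 2 μ → (∀ j, ∫ x, f x * u j x ∂μ = 0) → f =ᵐ[μ] 0

/-- the surface with the metric `exp φ · g` -/
def surf {M : Type} [TopologicalSpace M] (D : Data M) (φ : C(M, ℝ)) : Data M :=
  D.conf fun x => Real.exp (φ x)

/-- the area of the metric `exp φ · g` -/
def area {M : Type} [TopologicalSpace M] [MeasurableSpace M] (μ : Measure M) (φ : C(M, ℝ)) :
    Measure M :=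
  wm μ fun x => Real.exp (φ x)

/-- the mass of `h` for the function `v` and the metric `exp φ · g` -/
def mass {M : Type} [TopologicalSpace M] [MeasurableSpace M] (μ : Measure M) (φ h : C(M, ℝ))
    (v : M → ℝ) : ℝ :=
  ∫ x, h x * (v x) ^ 2 ∂(area μ φ)

/-- the mean value of `h` for the metric `exp φ · g` -/
def mean {M : Type} [TopologicalSpace M] [MeasurableSpace M] (μ : Measure M) (φ h : C(M, ℝ)) : ℝ :=
  (∫ x, h x ∂(area μ φ)) / (area μ φ).real univ

theorem result (M : Type) [MetricSpace M] [CompactSpace M] [MeasurableSpace M] [BorelSpace M]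
    [Nonempty M] (μ : Measure M) (D : Data M) (hD : D.IsSurf μ) :
    (∀ φ : C(M, ℝ), (surf D φ).IsSurf (area μ φ) ∧
      ∃ (u : ℕ → M → ℝ) (lam : ℕ → ℝ), IsEigenbasis (surf D φ) (area μ φ) u lam) ∧
    ∀ (φ h : C(M, ℝ)) (u : ℝ → ℕ → M → ℝ) (lam : ℝ → ℕ → ℝ),
      (∀ t : ℝ, IsEigenbasis (surf D (φ + t • h)) (area μ (φ + t • h)) (u t) (lam t)) →
    (∀ᵐ t : ℝ, ∀ j : ℕ,
      HasDerivAt (fun s => lam s j) (-(lam t j * mass μ (φ + t • h) h (u t j))) t ∧
      (0 < lam t j → ∀ v : M → ℝ, (surf D (φ + t • h)).IsEig (area μ (φ + t • h)) (lam t j) v →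
        ∫ x, (v x) ^ 2 ∂(area μ (φ + t • h)) = 1 →
        mass μ (φ + t • h) h v = mass μ (φ + t • h) h (u t j))) ∧
    (∃ J : ℕ, ∀ j : ℕ, J ≤ j → (∀ t, 0 < lam t j) ∧ ∀ α β : ℝ, α ≤ β →
      IntervalIntegrable (fun t => mass μ (φ + t • h) h (u t j)) volume α β ∧
      ∫ t in α..β, mass μ (φ + t • h) h (u t j) = Real.log (lam α j) - Real.log (lam β j)) ∧
    (∀ χ : ℝ → ℝ, Integrable χ →
      Tendsto (fun j => ∫ t, χ t * mass μ (φ + t • h) h (u t j)) atTop
        (𝓝 (∫ t, χ t * mean μ (φ + t • h) h))) ∧
    ∀ J : ℕ → ℕ, Tendsto J atTop atTop → ∀ᵐ t : ℝ,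
      liminf (fun k => mass μ (φ + t • h) h (u t (J k))) atTop ≤ mean μ (φ + t • h) h ∧
      mean μ (φ + t • h) h ≤ limsup (fun k => mass μ (φ + t • h) h (u t (J k))) atTop := by
  refine ⟨fun φ => ⟨(Pool.Agent.Y262.QE.tConf M μ D hD _
    (Real.continuous_exp.comp φ.continuous) fun x => Real.exp_pos _).1, ?_⟩, ?_⟩
  · obtain ⟨u, lam, h⟩ := Pool.Agent.Y264.QR.tEx M μ D hD inferInstance φ
    exact ⟨u, lam, h.eig, h.mono, h.orth, h.total⟩
  · intro φ h u lam hu
    exact Pool.Agent.X103.QF.paraF μ D hD φ h u lam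
      fun t => ⟨(hu t).eig, (hu t).mono, (hu t).orth, (hu t).total⟩

end Pool.Agent.Results.MP_07c750_an.OneParameterFamilies
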